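import Pool.Agent.Helper33.KT.Lines

/-!
K6: stable subspaces of the tensor powers of dimension less than `card n`.
-/

set_option autoImplicit false

open Matrix H77MT Pool.Agent.Helper79.KN Pool.Agent.Helper33.KN Pool.Agent.Helper73.KT Pool.Agent.Helper33.KT

namespace Pool.Agent.Helper61.K6

section cut
variable {Ω K : Type} [Fintype Ω] [Field K] [CharZero K] {R : Submodule K (Ω → K)}

/-- the part with one value of an integral function -/
theorem cut (f : Ω → ℤ) (hf : ∀ v ∈ R, (fun s => (f s : K) * v s) ∈ R) (z₀ : ℤ) {v : Ω → K} (hv : v ∈ R) :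
    (fun s => if f s = z₀ then v s else 0) ∈ R := by
  classical
  have key : ∀ Z : Finset ℤ, z₀ ∉ Z → (fun s => (∏ z ∈ Z, ((f s : K) - z) * ((z₀ : K) - z)⁻¹) * v s) ∈ R := by
    intro Z
    induction Z using Finset.induction_on with
    | empty => intro _; simpa using hv
    | insert z Z hz ih =>
      intro h0
      have h1 := ih fun h => h0 (Finset.mem_insert_of_mem h)
      have h2 := R.sub_mem (R.smul_mem ((z₀ : K) - z)⁻¹ (hf _ h1)) (R.smul_mem (((z₀ : K) - z)⁻¹ * z) h1)
      convert h2 using 1
      funext s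
      rw [Finset.prod_insert hz]
      simp only [Pi.sub_apply, Pi.smul_apply, smul_eq_mul]
      ring
  have h1 := key ((Finset.univ.image f).erase z₀) (Finset.notMem_erase _ _)
  convert h1 using 1
  funext s
  by_cases hs : f s = z₀
  · rw [if_pos hs, Finset.prod_eq_one, one_mul]
    intro z hz
    have hne : (z₀ : K) - z ≠ 0 := by
      rw [sub_ne_zero]
      exact_mod_cast (Finset.ne_of_mem_erase hz).symm
    rw [hs, mul_inv_cancel₀ hne]
  · rw [if_neg hs, Finset.prod_eq_zero (i := f s) (Finset.mem_erase.2 ⟨hs, Finset.mem_image_of_mem f (Finset.mem_univ s)⟩)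
      (by rw [sub_self, zero_mul]), zero_mul]

/-- the part with given values of several integral functions -/
theorem cuts {κ : Type} [Fintype κ] (f : κ → Ω → ℤ) (hf : ∀ k, ∀ v ∈ R, (fun s => (f k s : K) * v s) ∈ R) (z : κ → ℤ)
    {v : Ω → K} (hv : v ∈ R) : ∃ w ∈ R, (∀ s, (∀ k, f k s = z k) → w s = v s) ∧ ∀ s, w s ≠ 0 → ∀ k, f k s = z k := by
  classical
  have key : ∀ S : Finset κ, ∃ w ∈ R, (∀ s, (∀ k, f k s = z k) → w s = v s) ∧ ∀ s, w s ≠ 0 → ∀ k ∈ S, f k s = z k := by
    intro S
    induction S using Finset.induction_on with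
    | empty => exact ⟨v, hv, fun _ _ => rfl, fun _ _ k hk => absurd hk (Finset.notMem_empty k)⟩
    | insert k S hk ih =>
      obtain ⟨w, h1, h2, h3⟩ := ih
      refine ⟨_, cut (f k) (hf k) (z k) h1, fun s hs => ?_, fun s hs l hl => ?_⟩
      · show (if f k s = z k then w s else 0) = v s
        rw [if_pos (hs k), h2 s hs]
      · have hs' : (if f k s = z k then w s else 0) ≠ 0 := hs
        by_cases h : f k s = z k
        · rw [if_pos h] at hs'
          rcases Finset.mem_insert.1 hl with rfl | hl
          · exact h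
          · exact h3 s hs' l hl
        · rw [if_neg h] at hs'
          exact absurd rfl hs'
  obtain ⟨w, h1, h2, h3⟩ := key Finset.univ
  exact ⟨w, h1, h2, fun s hs k => h3 s hs k (Finset.mem_univ k)⟩

omit [CharZero K] in
/-- vectors with different supports -/
theorem card_le {n : Type} [Fintype n] [DecidableEq n] (w : n → Ω → K) (hw : ∀ c, w c ∈ R) (t : n → Ω) (h0 : ∀ c, w c (t c) ≠ 0)
    (h1 : ∀ c d, c ≠ d → w d (t c) = 0) : Fintype.card n ≤ Module.finrank K R := by
  have hli : LinearIndependent K fun c => (⟨w c, hw c⟩ : R) := by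
    rw [Fintype.linearIndependent_iff]
    intro g hg c
    have h2 := congrFun (congrArg Subtype.val hg) (t c)
    have h3 : ((∑ d, g d • (⟨w d, hw d⟩ : R) : R) : Ω → K) (t c) = ∑ d, g d * w d (t c) := by
      rw [Submodule.coe_sum, Finset.sum_apply]
      rfl
    rw [h3, Finset.sum_eq_single c (fun d _ hd => by rw [h1 c d (Ne.symm hd), mul_zero])
      (fun h => absurd (Finset.mem_univ c) h)] at h2
    exact (mul_eq_zero.1 h2).resolve_right (h0 c)
  exact hli.fintype_card_le_finrank

end cut

section weights
variable {X n K ι : Type} [DecidableEq X] [Fintype n] [DecidableEq n] [Field K] [Fintype ι] [DecidableEq ι]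

/-- the weight of one factor -/
def mu1 (i : ι → X × Bool) (x : X) (c : n) (a : ι) (j : n) : ℤ :=
  if (i a).1 = x then (if (i a).2 then (if j = c then 1 else 0) else (if j = c then -1 else 0)) else 0

/-- the weight -/
def mu (i : ι → X × Bool) (x : X) (c : n) (s : ι → n) : ℤ := ∑ a, mu1 i x c a (s a)

theorem lie_diag (i : ι → X × Bool) (x : X) (c : n) (v : (ι → n) → K) (s : ι → n) :
    lie i x c c v s = (mu i x c s : K) * v s := by
  show (∑ a, if (i a).1 = x then (if (i a).2 then (if s a = c then v (Function.update s a c) else 0)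
      else (if s a = c then -v (Function.update s a c) else 0)) else 0) = _
  rw [mu, Int.cast_sum, Finset.sum_mul]
  refine Finset.sum_congr rfl fun a _ => ?_
  rw [mu1]
  have hup : s a = c → Function.update s a c = s := fun h => by rw [← h, Function.update_eq_self]
  split_ifs with h1 h2 h3 h3
  · rw [hup h3]
    simp
  · simp
  · rw [hup h3]
    simp
  · simp
  · simp

theorem eta_eq (i : ι → X × Bool) (x : X) (c d : n) (s : ι → n) : eta i x c d s = mu i x c s - mu i x d s := by
  rw [eta, mu, mu, ← Finset.sum_sub_distrib]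
  refine Finset.sum_congr rfl fun a _ => ?_
  rw [eta1, mu1, mu1]
  split_ifs <;> simp

/-- the permutation of the labels of the factors of `x` -/
def per (i : ι → X × Bool) (x : X) (σ : Equiv.Perm n) (s : ι → n) : ι → n := fun a => if (i a).1 = x then σ (s a) else s a

theorem mu_per (i : ι → X × Bool) (x : X) (σ : Equiv.Perm n) (c : n) (s : ι → n) :
    mu i x (σ c) (per i x σ s) = mu i x c s := by
  rw [mu, mu]
  refine Finset.sum_congr rfl fun a _ => ?_
  rw [mu1, mu1, per]
  by_cases h : (i a).1 = x
  · rw [if_pos h, if_pos h, if_pos h]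
    by_cases h2 : s a = c
    · rw [if_pos (congrArg σ h2), if_pos h2, if_pos (congrArg σ h2), if_pos h2]
    · rw [if_neg fun h3 => h2 (σ.injective h3), if_neg h2, if_neg fun h3 => h2 (σ.injective h3), if_neg h2]
  · rw [if_neg h, if_neg h]

/-- the matrix of a transposition with determinant one -/
def wmat (K : Type) [Field K] (p q : n) : Matrix n n K :=
  (Matrix.diagonal fun k => if k = p then (-1 : K) else 1) * (Equiv.swap p q).permMatrix K

theorem wmat_apply (p q k l : n) : wmat K p q k l = if l = Equiv.swap p q k then (if k = p then -1 else 1) else 0 := by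
  rw [wmat, Matrix.diagonal_mul, Equiv.Perm.permMatrix, PEquiv.toMatrix_apply]
  simp only [Equiv.toPEquiv_apply, Option.mem_def, Option.some.injEq]
  by_cases h : l = Equiv.swap p q k
  · rw [if_pos h, if_pos h.symm, mul_one]
  · rw [if_neg h, if_neg (fun h' : Equiv.swap p q k = l => h h'.symm), mul_zero]

theorem wmat_det {p q : n} (h : p ≠ q) : (wmat K p q).det = 1 := by
  rw [wmat, Matrix.det_mul, Matrix.det_diagonal, Matrix.det_permutation, Equiv.Perm.sign_swap h, Finset.prod_ite_eq']
  simp

theorem wmat_mul (p q : n) : wmat K p q * (wmat K p q)ᵀ = 1 := by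
  ext k l
  rw [Matrix.mul_apply]
  simp only [Matrix.transpose_apply, wmat_apply]
  rw [Finset.sum_eq_single (Equiv.swap p q k)]
  · rw [if_pos rfl]
    by_cases h : k = l
    · subst h
      rw [if_pos rfl, Matrix.one_apply_eq]
      split_ifs <;> ring
    · rw [if_neg fun h' => h ((Equiv.swap p q).injective h'), mul_zero, Matrix.one_apply_ne h]
  · intro b _ hb
    rw [if_neg hb, zero_mul]
  · intro h
    exact absurd (Finset.mem_univ _) h

theorem pact_wmat {p q : n} (h : p ≠ q) (e : Bool) : pact (wmat K p q) e = wmat K p q := by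
  cases e
  · have h1 : (wmat K p q).adjugate = (wmat K p q)ᵀ := by
      have h2 := Matrix.adjugate_mul (wmat K p q)
      rw [wmat_det h, one_smul] at h2
      calc (wmat K p q).adjugate = (wmat K p q).adjugate * (wmat K p q * (wmat K p q)ᵀ) := by rw [wmat_mul, mul_one]
        _ = (wmat K p q)ᵀ := by rw [← mul_assoc, h2, one_mul]
    show (wmat K p q).adjugateᵀ = _
    rw [h1, Matrix.transpose_transpose]
  · rfl

/-- the image under a transposition -/
theorem per_mem {i : ι → X × Bool} {R : Submodule K ((ι → n) → K)} (hR : Stab i R) (x : X) {p q : n} (h : p ≠ q)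
    {v : (ι → n) → K} (hv : v ∈ R) : ∃ w ∈ R, ∀ s, (w s = 0 ↔ v (per i x (Equiv.swap p q) s) = 0) := by
  refine ⟨_, hR (fun x' => if x' = x then wmat K p q else 1) (fun x' => ?_) v hv, fun s => ?_⟩
  · split_ifs
    · exact wmat_det h
    · exact det_one
  · have h1 : ∀ a, pact ((fun x' => if x' = x then wmat K p q else 1) (i a).1) (i a).2 =
        if (i a).1 = x then wmat K p q else 1 := by
      intro a
      by_cases hx : (i a).1 = x
      · simp only [if_pos hx]
        exact pact_wmat h _
      · simp only [if_neg hx]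
        exact pact_one _
    have h2 : ten (fun a => pact ((fun x' => if x' = x then wmat K p q else 1) (i a).1) (i a).2) v s =
        (∏ a, (if (i a).1 = x then wmat K p q else 1 : Matrix n n K) (s a) (per i x (Equiv.swap p q) s a)) *
          v (per i x (Equiv.swap p q) s) := by
      simp only [h1]
      refine Finset.sum_eq_single (per i x (Equiv.swap p q) s) (fun t _ ht => ?_) fun h3 => absurd (Finset.mem_univ _) h3
      obtain ⟨a, ha⟩ := Function.ne_iff.1 ht
      have h4 : (if (i a).1 = x then wmat K p q else 1 : Matrix n n K) (s a) (t a) = 0 := by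
        rw [per] at ha
        by_cases hx : (i a).1 = x
        · rw [if_pos hx] at ha
          rw [if_pos hx, wmat_apply, if_neg ha]
        · rw [if_neg hx] at ha
          rw [if_neg hx, Matrix.one_apply_ne (Ne.symm ha)]
      rw [Finset.prod_eq_zero (Finset.mem_univ a) h4, zero_mul]
    have h5 : (∏ a, (if (i a).1 = x then wmat K p q else 1 : Matrix n n K) (s a) (per i x (Equiv.swap p q) s a)) ≠ 0 := by
      refine Finset.prod_ne_zero_iff.2 fun a _ => ?_
      rw [per]
      by_cases hx : (i a).1 = x
      · rw [if_pos hx, if_pos hx, wmat_apply, if_pos rfl]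
        split_ifs <;> norm_num
      · rw [if_neg hx, if_neg hx, Matrix.one_apply_eq]
        exact one_ne_zero
    rw [h2, mul_eq_zero, or_iff_right h5]

theorem per_per (i : ι → X × Bool) (x : X) (p q : n) (s : ι → n) :
    per i x (Equiv.swap p q) (per i x (Equiv.swap p q) s) = s := by
  funext a
  rw [per, per]
  by_cases h : (i a).1 = x
  · rw [if_pos h, if_pos h, Equiv.swap_apply_self]
  · rw [if_neg h, if_neg h]

/-- **weights of small stable subspaces** -/
theorem mu_const [CharZero K] [Nonempty n] {i : ι → X × Bool} {R : Submodule K ((ι → n) → K)} (hR : Stab i R)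
    (hdim : Module.finrank K R < Fintype.card n) (x : X) {v : (ι → n) → K} (hv : v ∈ R) {s : ι → n} (hs : v s ≠ 0)
    (c d : n) : mu i x c s = mu i x d s := by
  by_contra hne
  -- the part of one weight
  obtain ⟨w, hw, hw1, hw2⟩ := cuts (R := R) (fun k s => mu i x k s) (fun k u hu => by
    have h := lie_stab_all hR x k k u hu
    convert h using 1
    funext s
    exact (lie_diag i x k u s).symm) (fun k => mu i x k s) hv
  have hws : w s ≠ 0 := by rw [hw1 s fun _ => rfl]; exact hs
  -- the other weights
  have hper : ∀ p q : n, ∃ u ∈ R, ∃ t, u t ≠ 0 ∧ ∀ t, u t ≠ 0 → ∀ k, mu i x k t = mu i x (Equiv.swap p q k) s := by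
    intro p q
    by_cases hpq : p = q
    · subst hpq
      exact ⟨w, hw, s, hws, fun t ht k => by rw [hw2 t ht k, Equiv.swap_self]; rfl⟩
    · obtain ⟨u, hu, hu1⟩ := per_mem hR x hpq hw
      refine ⟨u, hu, per i x (Equiv.swap p q) s, ?_, fun t ht k => ?_⟩
      · rw [Ne, hu1, per_per]
        exact hws
      · have h2 := hw2 _ (fun h => ht ((hu1 t).2 h)) (Equiv.swap p q k)
        rw [mu_per] at h2
        exact h2
  -- the transpositions
  let τ : n → n := fun e => if mu i x e s = mu i x c s then (if e = c then c else d) else c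
  choose u hu t ht1 ht2 using fun e => hper (τ e) e
  refine absurd (card_le u hu t ht1 fun e f hef => ?_) (not_le.2 hdim)
  by_contra hcon
  have h1 : ∀ k, mu i x (Equiv.swap (τ e) e k) s = mu i x (Equiv.swap (τ f) f k) s := fun k => by
    rw [← ht2 e _ (ht1 e) k, ht2 f _ hcon k]
  have hcd : c ≠ d := fun h => hne (by rw [h])
  have hτ1 : ∀ e, mu i x e s ≠ mu i x c s → τ e = c := fun e h => if_neg h
  have hτ2 : τ c = c := by simp only [τ, if_true]
  have hτ3 : ∀ e, e ≠ c → mu i x e s = mu i x c s → τ e = d := fun e h h' => by simp only [τ, if_pos h', if_neg h]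
  have hcol : ∀ e f, e ≠ f → (∀ k, mu i x (Equiv.swap (τ e) e k) s = mu i x (Equiv.swap (τ f) f k) s) →
      mu i x e s ≠ mu i x c s → False := by
    intro e f hef h1 he
    have hec : e ≠ c := fun h => he (by rw [h])
    rw [hτ1 e he] at h1
    by_cases hf : mu i x f s = mu i x c s
    · have h2 := h1 c
      rw [Equiv.swap_apply_left] at h2
      by_cases hfc : f = c
      · rw [hfc, hτ2, Equiv.swap_self] at h2
        exact he h2
      · rw [hτ3 f hfc hf, Equiv.swap_apply_of_ne_of_ne hcd (Ne.symm hfc)] at h2
        exact he h2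
    · have h2 := h1 e
      rw [Equiv.swap_apply_right, hτ1 f hf, Equiv.swap_apply_of_ne_of_ne hec hef] at h2
      exact he h2.symm
  have hcol2 : ∀ e f, e ≠ f → (∀ k, mu i x (Equiv.swap (τ e) e k) s = mu i x (Equiv.swap (τ f) f k) s) →
      mu i x e s = mu i x c s → mu i x f s = mu i x c s → e ≠ c → False := by
    intro e f hef h1 he hf hec
    have hed : e ≠ d := fun h => hne (by rw [← he, h])
    have h2 := h1 e
    rw [hτ3 e hec he, Equiv.swap_apply_right] at h2
    by_cases hfc : f = c
    · rw [hfc, hτ2, Equiv.swap_self] at h2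
      exact hne (he.symm.trans h2.symm)
    · rw [hτ3 f hfc hf, Equiv.swap_apply_of_ne_of_ne hed hef] at h2
      exact hne (he.symm.trans h2.symm)
  by_cases he : mu i x e s = mu i x c s
  · by_cases hf : mu i x f s = mu i x c s
    · by_cases hec : e = c
      · exact hcol2 f e (Ne.symm hef) (fun k => (h1 k).symm) hf he fun h => hef (hec.trans h.symm)
      · exact hcol2 e f hef h1 he hf hec
    · exact hcol f e (Ne.symm hef) (fun k => (h1 k).symm) hf
  · exact hcol e f hef h1 he

/-- **small stable subspaces are killed** -/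
theorem killed_of_small [CharZero K] [Nonempty n] {i : ι → X × Bool} {R : Submodule K ((ι → n) → K)} (hR : Stab i R)
    (hdim : Module.finrank K R < Fintype.card n) (x : X) (c d : n) (hcd : c ≠ d) {v : (ι → n) → K} (hv : v ∈ R) :
    lie i x c d v = 0 := by
  have hsupp : ∀ v ∈ R, ∀ s, v s ≠ 0 → eta i x c d s = 0 := fun v hv s hs => by
    rw [eta_eq, mu_const hR hdim x hv hs c d, sub_self]
  have hl : lie i x c d v ∈ R := lie_stab hR x hcd v hv
  funext s
  rw [Pi.zero_apply]
  by_contra hne
  have h0 := hsupp _ hl s hne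
  obtain ⟨a, -, ha⟩ := Finset.exists_ne_zero_of_sum_ne_zero (show ∑ a, (if (i a).1 = x then
    (if (i a).2 then (if s a = c then v (Function.update s a d) else 0)
      else (if s a = d then -v (Function.update s a c) else 0)) else 0) ≠ 0 from hne)
  by_cases hx : (i a).1 = x
  · rw [if_pos hx] at ha
    by_cases hb : (i a).2 = true
    · rw [if_pos hb] at ha
      by_cases hc : s a = c
      · rw [if_pos hc] at ha
        have h := hsupp _ hv _ ha
        rw [eta_update, h0, eta1, eta1, if_pos hx, if_pos hx, if_pos hb, if_pos hb, if_pos hc,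
          if_neg (by rw [hc]; exact hcd), if_neg hcd.symm, if_pos rfl] at h
        norm_num at h
      · rw [if_neg hc] at ha
        exact ha rfl
    · rw [if_neg hb] at ha
      by_cases hd : s a = d
      · rw [if_pos hd] at ha
        have h := hsupp _ hv _ (neg_ne_zero.1 ha)
        rw [eta_update, h0, eta1, eta1, if_pos hx, if_pos hx, if_neg hb, if_neg hb, if_pos hd,
          if_neg (by rw [hd]; exact hcd.symm), if_neg hcd, if_pos rfl] at h
        norm_num at h
      · rw [if_neg hd] at ha
        exact ha rfl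
  · rw [if_neg hx] at ha
    exact ha rfl

end weights

/-- **Small stable subspaces of the tensor power** -/
theorem small {Γ X n K ι : Type} [Group Γ] [Fintype X] [DecidableEq X] [Fintype n] [DecidableEq n] [Field K]
    [CharZero K] [Fintype ι] [DecidableEq ι] {ρ : Rep Γ X n K} (hn : Fintype.card ι < Fintype.card n) (hfull : IsFull ρ)
    {m : ℕ} {c : Γ →* Kˣ} {P : Submodule K ((ι → X × Bool) → (ι → n) → K)} (hdim : Module.finrank K P < Fintype.card n)
    {Δ : Subgroup Γ} (hΔ : Δ.FiniteIndex) (hP : ∀ γ ∈ Δ, ∀ M ∈ P, actTen ρ m c γ M ∈ P) {q : ℕ}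
    (hq : 2 * q ≤ Fintype.card ι + 1) {M : (ι → X × Bool) → (ι → n) → K} (hM : M ∈ P) (i : ι → X × Bool) :
    M i ∈ pairs K n i q := by
  have hne : Nonempty n := Fintype.card_pos_iff.1 (by omega)
  exact fft (Fintype.card ι) ι i (M i) rfl hn (fun x a b hab => killed_of_small (block_stab hfull hΔ hP i)
    (lt_of_le_of_lt (Submodule.finrank_map_le _ _) hdim) x a b hab ⟨M, hM, rfl⟩) q hq

end Pool.Agent.Helper61.K6
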